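import Pool.Agent.helper14.AV.Spec

/-!
# av:SET: the tree of cells of a family of segments
-/

set_option autoImplicit false

namespace Pool.Agent.helper14.AV

theorem SET_sign (x y : ℝ) (b : Bool) (h : 0 < x * y) (hb : b = true ↔ 0 < x) : 0 < sg b * x ∧ 0 < sg b * y := by
  unfold sg
  cases b with
  | true =>
    have hx : 0 < x := hb.1 rfl
    have hy : 0 < y := (mul_pos_iff_of_pos_left hx).1 h
    simp only [if_true, one_mul]
    exact ⟨hx, hy⟩
  | false =>
    have hx : ¬ 0 < x := fun hc => Bool.false_ne_true (hb.2 hc)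
    have hx0 : x ≠ 0 := fun h0 => by
      rw [h0, zero_mul] at h
      exact lt_irrefl _ h
    have hx1 : x < 0 := lt_of_le_of_ne (not_lt.1 hx) hx0
    have hy : y < 0 := by
      by_contra hc
      push Not at hc
      have := mul_nonpos_of_nonpos_of_nonneg hx1.le hc
      linarith
    simp only [Bool.false_eq_true, if_false]
    constructor <;> linarith

theorem SET_neg (b c : Bool) (x : ℝ) (h : 0 < sg b * x) (hbc : b ≠ c) : sg c * x < 0 := by
  unfold sg at *
  cases b <;> cases c <;> simp_all

theorem SET (hBSU : BSU_stmt) : SET_stmt := by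
  classical
  intro ι _ _ A B hne hs
  obtain ⟨side, hside⟩ : ∃ side : ι → ι → Bool, ∀ u j, side u j = true ↔ 0 < D (A u) (B u) (A j) :=
    ⟨fun u j => decide (0 < D (A u) (B u) (A j)), fun u j => decide_eq_true_iff⟩
  have hsg : ∀ u j, u ≠ j → 0 < sg (side u j) * D (A u) (B u) (A j) ∧ 0 < sg (side u j) * D (A u) (B u) (B j) :=
    fun u j huj => SET_sign _ _ _ (hs u j huj) (hside u j)
  obtain ⟨V, hV, T, e, anc, τ, loc, hconn, hcard, hinj, himg, hanc, hinc, hsep, hcells, hloc⟩ :=
    hBSU ι side Finset.univ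
  rw [Finset.card_univ] at hcard
  rw [Finset.coe_univ] at hinj himg
  have hinj2 : Function.Injective e := Set.injOn_univ.1 hinj
  have hrange : Set.range e = T.edgeSet := by
    rw [← Set.image_univ]
    exact himg
  refine ⟨V, hV, T, e, anc, τ, hcard, ?_, hinj2, hrange, hne, fun i c hc => ?_, fun c j => ?_, hcells⟩
  · rw [SimpleGraph.isTree_iff_connected_and_card]
    refine ⟨hconn, ?_⟩
    rw [← hrange, Nat.card_congr (Equiv.ofInjective e hinj2).symm, Nat.card_eq_fintype_card,
      Nat.card_eq_fintype_card, hcard]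
  · obtain ⟨h1, h2⟩ := hinc i (Finset.mem_univ i) c hc
    refine ⟨h1, fun u hu hui => ?_⟩
    rw [← h2 u hu hui]
    exact hsg u i hui
  · obtain ⟨u, hu, h1⟩ := hsep c j (Finset.mem_univ j)
    refine ⟨u, hu, ?_⟩
    by_cases huj : u = j
    · exact Or.inl huj
    · refine Or.inr ?_
      have h2 := h1.resolve_left huj
      exact ⟨SET_neg _ _ _ (hsg u j huj).1 h2, SET_neg _ _ _ (hsg u j huj).2 h2⟩

end Pool.Agent.helper14.AV
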